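import Pool.Agent.Lib_MP_38e082_fsa.S1

/-!
# H26-S2: reduction to the lower part, the small pool
-/

set_option linter.unusedSectionVars false
set_option linter.unusedVariables false

namespace Pool.Agent.FSA

universe u v

open Set Cardinal Pool.Agent.KT Pool.Agent.KTM

section
variable {O A B : Type u} [LinearOrder O] [OrderBot O] [WellFoundedLT O]
  {κ : O → Cardinal.{u}} {a c τ : O → O} (hS : SysR O κ a c τ)
include hS

/-- Tasks `(γ, x, t)`, `γ ∈ N`, `x ∈ AA γ`, `t : EE a c (Iic γ)`, with `ρ (γ, x, t) = γ` and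
`D (γ, x, t) = {e | ∃ t' ≤ t, ∃ b, Φ.val x b (EE.glue t' e)}`, in `SysR.fusion`. -/
theorem SysR.exists_reduce {N : Set O} (hN : Thin κ a N) (AA : O → Set A)
    (hA : ∀ γ ∈ N, #(AA γ) ≤ κ γ)
    (Φ : PF (EE a c univ) A B) (e : EE a c univ) : ∃ e' ≤ e, ∀ γ ∈ N, ∀ x ∈ AA γ,
      ∀ t : EE a c (Iic γ), ∃ t' ≤ t, ∃ b, Φ.val x b (EE.glue t' e') := by
  suffices key : ∃ e' ≤ e, ∀ j : Σ γ : N, (AA γ.1) × (EE a c (Iic γ.1)),
      e' ∈ {e : EE a c univ | ∃ t' ≤ j.2.2, ∃ b, Φ.val j.2.1.1 b (EE.glue t' e)} by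
    obtain ⟨e', he', h⟩ := key
    exact ⟨e', he', fun γ hγ x hx t => h ⟨⟨γ, hγ⟩, ⟨x, hx⟩, t⟩⟩
  refine hS.fusion (J := Σ γ : N, (AA γ.1) × (EE a c (Iic γ.1))) (fun j => j.1.1) ?_
    (fun j => {e | ∃ t' ≤ j.2.2, ∃ b, Φ.val j.2.1.1 b (EE.glue t' e)}) ?_ ?_ e
  · intro ξ
    refine lt_of_le_of_lt ?_ (hN ξ)
    let f : {j : Σ γ : N, (AA γ.1) × (EE a c (Iic γ.1)) // j.1.1 < ξ} →
        Σ γ : {γ // γ ∈ N ∧ γ < ξ}, (AA γ.1) × (EE a c (Iic γ.1)) :=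
      fun j => ⟨⟨j.1.1.1, j.1.1.2, j.2⟩, j.1.2⟩
    have hf : Function.Injective f := by
      rintro ⟨⟨⟨γ, hγN⟩, y⟩, hγ⟩ ⟨⟨⟨γ', hγN'⟩, y'⟩, hγ'⟩ hh
      simp only [f, Sigma.mk.injEq, Subtype.mk.injEq] at hh
      obtain ⟨h1, h2⟩ := hh
      subst h1
      rw [heq_iff_eq] at h2
      subst h2
      rfl
    refine (mk_le_of_injective hf).trans ?_
    rw [mk_sigma]
    refine Cardinal.sum_le_sum _ _ fun γ => ?_
    rw [mk_prod, lift_id, lift_id]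
    refine (mul_le_mul' (hA γ.1 γ.2.1) (hS.card_low γ.1)).trans ?_
    exact (mul_eq_self (hS.κ_inf γ.1)).le
  · rintro j e1 ⟨t', ht', b, hb⟩ e2 he2
    exact ⟨t', ht', b, Φ.mono j.2.1.1 b (EE.glue t' e1) (EE.glue t' e2)
      (EE.glue_mono le_rfl he2) hb⟩
  · rintro ⟨⟨γ, hγN⟩, x, t⟩ e1
    obtain ⟨r, hr, b, hb⟩ := Φ.total x.1 (EE.glue t e1)
    refine ⟨EE.glue (EE.low γ e1) r, ?_, ⟨EE.low γ r, EE.low_glue_le hr, b, ?_⟩, ?_⟩
    · intro ξ i y hy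
      by_cases hξ : ξ ≤ γ
      · simp only [EE.glue, EE.low, if_pos hξ]; exact hy
      · simp only [EE.glue, if_neg hξ]
        apply hr ξ i y
        simp only [EE.glue, if_neg hξ]; exact hy
    · have h1 : EE.glue (EE.low γ r) (EE.glue (EE.low γ e1) r) = r := by
        apply Subtype.ext
        funext ξ i
        by_cases hξ : ξ ≤ γ
        · simp only [EE.glue, EE.low, if_pos hξ]
        · simp only [EE.glue, if_neg hξ]
      change Φ.val x.1 b (EE.glue (EE.low γ r) (EE.glue (EE.low γ e1) r))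
      rw [h1]
      exact hb
    · intro ξ hξ i
      have hξ' : ξ ≤ γ := hξ
      simp only [EE.glue, EE.low, if_pos hξ']

omit hS in
/-- the function valued in the lower part -/
theorem exists_PF_low {γ : O} {AA : Set A} {Φ : PF (EE a c univ) A B}
    {e' : EE a c univ} (h : ∀ x ∈ AA, ∀ t : EE a c (Iic γ), ∃ t' ≤ t, ∃ b,
      Φ.val x b (EE.glue t' e')) :
    ∃ X : PF (EE a c (Iic γ)) AA B, (∀ x b t, X.val x b t ↔ Φ.val x b (EE.glue t e')) ∧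
      ∀ x b, ∀ r : EE a c univ, r ≤ e' → (X.val x b (EE.low γ r) ↔ Φ.val x b r) := by
  let X : PF (EE a c (Iic γ)) AA B :=
    { val := fun x b t => Φ.val x.1 b (EE.glue t e')
      mono := fun x b p q hq hp => Φ.mono _ _ _ _ (EE.glue_mono hq le_rfl) hp
      dense := by
        intro x b p hp
        apply Φ.dense
        intro s hs
        obtain ⟨r, hr, hr1⟩ := hp (EE.low γ s) (EE.low_glue_le hs)
        refine ⟨EE.glue r s, EE.glue_le hr,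
          Φ.mono x.1 b (EE.glue r e') (EE.glue r s) ?_ hr1⟩
        intro ξ i y hy
        by_cases hξ : ξ ≤ γ
        · simp only [EE.glue, if_pos hξ] at hy ⊢; exact hy
        · simp only [EE.glue, if_neg hξ] at hy ⊢
          apply hs ξ i y
          simp only [EE.glue, if_neg hξ]; exact hy
      uniq := fun x b b' p h1 h2 => Φ.uniq _ _ _ _ h1 h2
      total := fun x p => by
        obtain ⟨t', ht', b, hb⟩ := h x.1 x.2 p
        exact ⟨t', ht', b, hb⟩ }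
  refine ⟨X, fun _ _ _ => Iff.rfl, fun x b r hr => ⟨fun h1 => ?_, fun h1 => ?_⟩⟩
  · exact Φ.mono x.1 b (EE.glue (EE.low γ r) e') r (EE.le_glue_low γ hr) h1
  · apply X.dense
    intro q hq
    obtain ⟨t', ht', b', hb'⟩ := h x.1 x.2 q
    refine ⟨t', ht', ?_⟩
    have h2 : Φ.val x.1 b (EE.glue t' r) :=
      Φ.mono _ _ _ _ (EE.glue_le (ht'.trans hq)) h1
    have h3 : Φ.val x.1 b' (EE.glue t' r) :=
      Φ.mono x.1 b' (EE.glue t' e') (EE.glue t' r) (EE.glue_mono le_rfl hr) hb'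
    have h4 : b = b' := Φ.uniq _ _ _ _ h2 h3
    subst h4
    exact hb'

/-- **Covering.** The values of `Φ` are in a ground set with fewer than `#(Iio (a γ))` elements if
the arguments are covered by sets of size `κ γ'`, `γ' ∈ N`, for a thin set `N` below `γ`. -/
theorem SysR.exists_cover {N : Set O} (hN : Thin κ a N) {γ : O} (hγ : ∀ γ' ∈ N, γ' < γ)
    (AA : O → Set A) (hA : ∀ γ ∈ N, #(AA γ) ≤ κ γ) (hAA : ∀ x, ∃ γ ∈ N, x ∈ AA γ)
    (Φ : PF (EE a c univ) A B) (e : EE a c univ) :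
    ∃ e' ≤ e, ∃ Z : Set B, #Z < #(Iio (a γ)) ∧ ∀ x b, ∀ r ≤ e', Φ.val x b r → b ∈ Z := by
  obtain ⟨e', he', h⟩ := hS.exists_reduce hN AA hA Φ e
  let Z : Set B := {b | ∃ γ' ∈ N, ∃ x ∈ AA γ', ∃ t : EE a c (Iic γ'), Φ.val x b (EE.glue t e')}
  refine ⟨e', he', Z, ?_, ?_⟩
  · refine lt_of_le_of_lt ?_ (hN γ)
    let J : Type u := Σ γ' : {γ' // γ' ∈ N ∧ γ' < γ}, (AA γ'.1) × (EE a c (Iic γ'.1))
    let P : J → Prop := fun j => ∃ b, Φ.val j.2.1.1 b (EE.glue j.2.2 e')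
    let F : {j : J // P j} → Z := fun j =>
      ⟨Classical.choose j.2, j.1.1.1, j.1.1.2.1, j.1.2.1.1, j.1.2.1.2, j.1.2.2,
        Classical.choose_spec j.2⟩
    have hF : Function.Surjective F := by
      rintro ⟨b, γ', hγ', x, hx, t, hb⟩
      refine ⟨⟨⟨⟨γ', hγ', hγ γ' hγ'⟩, ⟨x, hx⟩, t⟩, b, hb⟩, Subtype.ext ?_⟩
      exact Φ.uniq _ _ _ _ (Classical.choose_spec (⟨b, hb⟩ : ∃ b, Φ.val x b (EE.glue t e'))) hb
    refine (mk_le_of_surjective hF).trans ((mk_subtype_le _).trans ?_)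
    rw [mk_sigma]
    refine Cardinal.sum_le_sum _ _ fun γ' => ?_
    rw [mk_prod, lift_id, lift_id]
    refine (mul_le_mul' (hA γ'.1 γ'.2.1) (hS.card_low γ'.1)).trans ?_
    exact (mul_eq_self (hS.κ_inf γ'.1)).le
  · intro x b r hr hb
    obtain ⟨γ', hγ', hx⟩ := hAA x
    obtain ⟨X, hX1, hX2⟩ := exists_PF_low (h γ' hγ')
    exact ⟨γ', hγ', x, hx, EE.low γ' r, (hX1 ⟨x, hx⟩ b _).1 ((hX2 ⟨x, hx⟩ b r hr).2 hb)⟩

end

/-- the pool for `A`: `EE.glue t ⊤` for `t : EE a c (Iic γ)` with `#A ≤ κ γ`; the type of these `t`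
is small -/
theorem SysR.smallPool {O : Type (v+1)} [LinearOrder O] [OrderBot O] [WellFoundedLT O]
    {κ : O → Cardinal.{v+1}} {a c τ : O → O} (hS : SysR O κ a c τ)
    (h1 : ∀ γ, κ γ < Cardinal.univ.{v, v+1})
    (h2 : ∀ A : Type v, ∃ γ, Cardinal.lift.{v+1} #A ≤ κ γ) :
    SmallPool (EE a c (univ : Set O)) := by
  let _ : OrderTop (EE a c (univ : Set O)) := EE.top hS.a_pos univ
  intro A
  obtain ⟨γ, hγ⟩ := h2 A
  obtain ⟨c', hc'⟩ := Cardinal.lt_univ.1 (lt_of_le_of_lt (hS.card_low γ) (h1 γ))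
  have hc2 : #(EE a c (Iic γ)) = #(ULift.{v+1} c'.out) := by
    rw [hc', Cardinal.mk_uLift, Cardinal.mk_out]
  obtain ⟨φ⟩ := Cardinal.eq.1 hc2
  refine ⟨c'.out, fun i => EE.glue (φ.symm ⟨i⟩) ⊤, ?_⟩
  intro B Φ q
  obtain ⟨e', he', h⟩ := hS.exists_reduce (hS.thin_singleton γ)
    (fun _ => (univ : Set (ULift.{v+1} A))) (fun γ' hγ' => by
      rw [mem_singleton_iff] at hγ'
      subst hγ'
      refine (mk_set_le _).trans ?_
      rw [Cardinal.mk_uLift]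
      exact hγ) Φ q
  refine ⟨e', he', ?_⟩
  intro x r hr
  obtain ⟨t', ht', b, hb⟩ := h γ rfl x (mem_univ _) (EE.low γ r)
  refine ⟨EE.glue t' r, EE.glue_le ht', (φ t').down, ?_, b, ?_⟩
  · have h4 : φ.symm ⟨(φ t').down⟩ = t' := φ.symm_apply_apply t'
    simp only [h4]
    exact EE.glue_mono le_rfl le_top
  · intro s hs1 hs2
    have h4 : φ.symm ⟨(φ t').down⟩ = t' := φ.symm_apply_apply t'
    simp only [h4] at hs1
    refine Φ.mono x b (EE.glue t' e') s ?_ hb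
    intro ξ i y hy
    by_cases hξ : ξ ≤ γ
    · apply hs1 ξ i y
      simp only [EE.glue, if_pos hξ] at hy ⊢; exact hy
    · simp only [EE.glue, if_neg hξ] at hy
      exact hs2 ξ i y hy

end Pool.Agent.FSA
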