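import Pool.Agent.Lib_MP_38e082_fsa.S2
import Pool.Agent.Lib_MP_bf47cd.V05

/-!
# H26-S3: the forcing gives GCH; covering and cofinalities
-/

set_option linter.unusedSectionVars false
set_option linter.unusedVariables false

namespace Pool.Agent.FSA

universe u v

open Set Cardinal Pool.Agent.KT Pool.Agent.KTM

/-- more parameters -/
structure SysH (O : Type u) [LinearOrder O] [OrderBot O] (κ : O → Cardinal.{u})
    (a c τ : O → O) : Prop extends SysR O κ a c τ where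
  /-- the intervals cover -/
  cov : ∀ α, a ⊥ ≤ α → ∃ β, β ≠ ⊥ ∧ τ β ≤ α ∧ α < a β
  /-- a thin set along which `τ β` is approximated -/
  app : ∀ β, τ β < a β → ∃ N, Thin κ a N ∧ (∀ γ ∈ N, γ < β) ∧ ∀ x < τ β, ∃ γ ∈ N, x < a γ
  /-- the elements of the interval are injected into `τ β` -/
  inj : ∀ β, β ≠ ⊥ → τ β < a β → (∀ x < a β, #(Iio x) ≤ #(Iio (τ β))) ∨
    ∃ γ, τ β = a γ ∧ ∀ x < a β, #(Iio x) ≤ κ γ
  /-- `Iio x` for `x < a β` is the union of sets of size `κ γ`, `γ ∈ N`, for a thin set `N` -/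
  part : ∀ β, β ≠ ⊥ → ∀ x < a β, ∃ N, Thin κ a N ∧ (∀ γ ∈ N, γ < β) ∧
    ∃ AA : O → Set (Iio x), (∀ γ ∈ N, #(AA γ) ≤ κ γ) ∧ ∀ y, ∃ γ ∈ N, y ∈ AA γ
  /-- the limit levels -/
  lim : ∀ β, β ≠ ⊥ → τ β < a β → (∃ γ, τ β = a γ) ∨ ∃ N g, SingP κ a τ β N g

/-- there are few functions valued in a small forcing -/
private theorem S3_card_PF {Q A : Type u} [Preorder Q] {l : Cardinal.{u}} (hl : ℵ₀ ≤ l)
    (h1 : #Q ≤ l) (h2 : #A ≤ l) : #(PF Q A (ULift.{u} Bool)) ≤ 2 ^ l := by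
  have hinj : Function.Injective (fun X : PF Q A (ULift.{u} Bool) =>
      {t : A × ULift.{u} Bool × Q | X.val t.1 t.2.1 t.2.2}) := by
    intro X X' h
    refine PF.ext fun x b p => ?_
    have := congrArg (fun s : Set (A × ULift.{u} Bool × Q) => (x, b, p) ∈ s) h
    simpa using this
  have h3 : #(PF Q A (ULift.{u} Bool)) ≤ #(Set (A × ULift.{u} Bool × Q)) :=
    Cardinal.mk_le_of_injective hinj
  refine h3.trans ?_
  rw [Cardinal.mk_set]
  refine Cardinal.power_le_power_left two_ne_zero ?_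
  rw [Cardinal.mk_prod, Cardinal.mk_prod]
  simp only [Cardinal.lift_id]
  refine Cardinal.mul_le_of_le hl h2 (Cardinal.mul_le_of_le hl ?_ h1)
  have h4 : #(ULift.{u} Bool) ≤ ℵ₀ := Cardinal.mk_le_aleph0
  exact h4.trans hl

variable {O : Type u} [LinearOrder O] [OrderBot O] [WellFoundedLT O]
  {κ : O → Cardinal.{u}} {a c τ : O → O}

theorem SysR.c_pos (hS : SysR O κ a c τ) (γ : O) : ⊥ < c γ := by
  rw [bot_lt_iff_ne_bot]
  intro h
  have h1 := hS.κ_inf γ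
  rw [← hS.c_eq γ, h] at h1
  have h2 : #(Iio (⊥ : O)) = 0 := by
    rw [Cardinal.mk_eq_zero_iff]
    exact ⟨fun y => not_lt_bot y.2⟩
  rw [h2] at h1
  exact absurd h1 (not_le.2 Cardinal.aleph0_pos)

/-- every ordinal below `a γ` is below another one -/
theorem SysR.exists_gt (hS : SysR O κ a c τ) {γ : O} {x y : O} (hx : x < a γ) (hy : y < a γ) :
    ∃ b < a γ, x < b ∧ y < b := by
  obtain ⟨b, h1, h2⟩ := hS.reg γ {x, y} (by
    refine lt_of_lt_of_le ?_ (hS.inf γ)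
    exact Cardinal.mk_lt_aleph0_iff.2 (Set.toFinite {x, y})) (by
    rintro z (rfl | hz)
    · exact hx
    · rw [mem_singleton_iff] at hz
      rw [hz]; exact hy)
  exact ⟨b, h1, h2 x (by simp), h2 y (by simp)⟩

open Classical in
/-- one more value at `γ` -/
theorem SysR.exists_ext (hS : SysR O κ a c τ) {γ : O} (e : EE a c univ) {i x : O} (hi : i < a γ)
    (hx : x < c γ) (h : e.1 γ i = none) : ∃ e' ≤ e, e'.1 γ i = some x ∧
      ∀ ξ j, (ξ, j) ≠ (γ, i) → e'.1 ξ j = e.1 ξ j := by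
  refine ⟨⟨fun ξ j => if ξ = γ ∧ j = i then some x else e.1 ξ j,
    fun ξ hξ => absurd (mem_univ ξ) hξ, ?_, ?_⟩, ?_, ?_, ?_⟩
  · intro ξ
    obtain ⟨b, hb, hb2⟩ := e.2.2.1 ξ
    by_cases hξ : ξ = γ
    · subst hξ
      obtain ⟨b', hb', h1, h2⟩ := hS.exists_gt hi hb
      refine ⟨b', hb', fun j hj => ?_⟩
      have h3 : ¬ (ξ = ξ ∧ j = i) := by
        rintro ⟨_, rfl⟩
        exact absurd h1 (not_lt.2 hj)
      exact (if_neg h3).trans (hb2 j (h2.le.trans hj))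
    · refine ⟨b, hb, fun j hj => ?_⟩
      exact (if_neg (fun hh => hξ hh.1)).trans (hb2 j hj)
  · intro ξ j y hy
    by_cases hh : ξ = γ ∧ j = i
    · have hy' := (if_pos hh).symm.trans hy
      rw [Option.some_inj] at hy'
      rw [← hy', hh.1]
      exact hx
    · exact e.2.2.2 ξ j y ((if_neg hh).symm.trans hy)
  · intro ξ j y hy
    by_cases hh : ξ = γ ∧ j = i
    · rw [hh.1, hh.2, h] at hy
      exact absurd hy (by simp)
    · exact (if_neg hh).trans hy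
  · exact if_pos ⟨rfl, rfl⟩
  · intro ξ j hne
    refine if_neg fun hh => hne ?_
    rw [hh.1, hh.2]

/-- the generic function at `γ`: `v i x q := q.1 γ i = some x` -/
theorem SysR.exists_gen (hS : SysR O κ a c τ) (γ : O) :
    ∃ g : PF (EE a c univ) (Iio (a γ)) (Iio (c γ)),
      (∀ i x q, q.1 γ i.1 = some x.1 → g.val i x q) ∧ DSurj g := by
  have hc := hS.c_pos γ
  obtain ⟨X, hX1, hX2⟩ := PF.exists_ofDense (P := EE a c univ) (A := Iio (a γ))
    (B := Iio (c γ)) (fun i x q => q.1 γ i.1 = some x.1)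
    (fun i x p q (hqp : q ≤ p) h => hqp γ i.1 x.1 h)
    (fun i x x' p h h' => Subtype.ext (by
      rw [h] at h'
      exact Option.some_inj.1 h'))
    (by
      intro i p
      rcases h : p.1 γ i.1 with _ | x
      · obtain ⟨e', he', h', _⟩ := hS.exists_ext p i.2 hc h
        exact ⟨e', he', ⟨⊥, hc⟩, h'⟩
      · exact ⟨p, le_rfl, ⟨x, p.2.2.2 γ i.1 x h⟩, h⟩)
  refine ⟨X, hX2, fun x q => ?_⟩
  obtain ⟨b, hb, hb2⟩ := q.2.2.1 γ
  obtain ⟨e', he', h', _⟩ := hS.exists_ext q hb x.2 (hb2 b le_rfl)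
  exact ⟨e', he', ⟨b, hb⟩, hX2 ⟨b, hb⟩ x _ h'⟩

variable (hS : SysH O κ a c τ)
include hS

/-- ground model injection, or followed by the inverse of the generic surjection onto
`Iio (c γ)` (`exists_inverse`) -/
theorem SysH.exists_inj {β : O} (hβ : β ≠ ⊥) (hτ : τ β < a β) {x : O} (hx : x < a β) :
    ∃ J : PF (EE a c univ) (Iio x) (Iio (τ β)), ∀ q, InjP J q := by
  rcases hS.inj β hβ hτ with h | ⟨γ, hγ, h⟩
  · obtain ⟨f⟩ := Cardinal.le_def _ _ |>.1 (h x hx)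
    exact ⟨PF.ofFun _ f, fun q => injP_ofFun f.injective q⟩
  · have h1 := h x hx
    rw [← hS.c_eq γ] at h1
    obtain ⟨f⟩ := Cardinal.le_def _ _ |>.1 h1
    rw [hγ]
    obtain ⟨g, _, hg⟩ := hS.exists_gen γ
    obtain ⟨J, hJ⟩ := exists_inverse hg
    exact ⟨PF.pre J f, fun q => InjP.pre (hJ q) f.injective⟩

/-- Families `(X γ)`, `γ ∈ N`, of `X γ : PF (EE a c (Iic γ)) (Iio (a γ)) Bool`: there are at most
`2 ^ (sum of κ γ) ≤ κ β` -/
theorem SysH.exists_pow {β : O} (hτ : τ β < a β) :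
    ∃ S : PF (EE a c univ) (Iio (a β) × Iio (τ β)) (ULift.{u} Bool),
      PowP (Iio (τ β)) (Iio (a β)) S := by
  obtain ⟨N, hN, hNβ, hNτ⟩ := hS.app β hτ
  obtain ⟨g, _, hg⟩ := hS.exists_gen β
  -- the families
  have hcard : #((γ : N) → PF (EE a c (Iic γ.1)) (Iio (a γ.1)) (ULift.{u} Bool)) ≤
      #(Iio (c β)) := by
    rw [hS.c_eq β, Cardinal.mk_pi]
    have h1 : Cardinal.sum (fun γ : N => κ γ.1) < κ β := by
      refine lt_of_le_of_lt ?_ ((hN β).trans (hS.a_lt β))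
      have h2 : Cardinal.sum (fun γ : N => κ γ.1) =
          #(Σ γ : N, (κ γ.1).out) := by rw [Cardinal.mk_sigma]; simp only [Cardinal.mk_out]
      have h3 : Cardinal.sum (fun γ : {γ // γ ∈ N ∧ γ < β} => κ γ.1) =
          #(Σ γ : {γ // γ ∈ N ∧ γ < β}, (κ γ.1).out) := by
        rw [Cardinal.mk_sigma]; simp only [Cardinal.mk_out]
      rw [h2, h3]
      refine Cardinal.mk_le_of_injective (f := fun x => ⟨⟨x.1.1, x.1.2, hNβ _ x.1.2⟩, x.2⟩) ?_
      rintro ⟨⟨γ, hγ⟩, y⟩ ⟨⟨γ', hγ'⟩, y'⟩ hh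
      simp only [Sigma.mk.injEq, Subtype.mk.injEq] at hh
      obtain ⟨h1, h2⟩ := hh
      subst h1
      rw [heq_iff_eq] at h2
      subst h2
      rfl
    calc Cardinal.prod (fun γ : N => #(PF (EE a c (Iic γ.1)) (Iio (a γ.1)) (ULift.{u} Bool)))
        ≤ Cardinal.prod (fun γ : N => (2 : Cardinal.{u}) ^ κ γ.1) := by
          refine Cardinal.prod_le_prod _ _ fun γ => ?_
          exact S3_card_PF (hS.κ_inf γ.1) (hS.card_low γ.1) (hS.a_lt γ.1).le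
      _ = 2 ^ Cardinal.sum (fun γ : N => κ γ.1) := (Cardinal.power_sum _ _).symm
      _ ≤ κ β := (hS.strong β _ h1).le
  obtain ⟨f⟩ := Cardinal.le_def _ _ |>.1 hcard
  have : Nonempty ((γ : N) → PF (EE a c (Iic γ.1)) (Iio (a γ.1)) (ULift.{u} Bool)) :=
    ⟨fun γ => PF.ofFun _ fun _ => ⟨true⟩⟩
  obtain ⟨φ, hφ⟩ : ∃ φ : Iio (c β) →
      ((γ : N) → PF (EE a c (Iic γ.1)) (Iio (a γ.1)) (ULift.{u} Bool)),
      Function.Surjective φ :=
    ⟨Function.invFun f, Function.invFun_surjective f.injective⟩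
  have hlev : ∀ x : Iio (τ β), ∃ γ : N, x.1 < a γ.1 := by
    intro x
    obtain ⟨γ, h1, h2⟩ := hNτ x.1 x.2
    exact ⟨⟨γ, h1⟩, h2⟩
  choose l hl using hlev
  obtain ⟨S, hS1, hS2⟩ := PF.exists_ofDense (P := EE a c univ)
    (A := Iio (a β) × Iio (τ β)) (B := ULift.{u} Bool)
    (fun yx b q => ∃ z, g.val yx.1 z q ∧
      (φ z (l yx.2)).val ⟨yx.2.1, hl yx.2⟩ b (EE.low (l yx.2).1 q))
    (by
      rintro ⟨y, x⟩ b p q hqp ⟨z, h1, h2⟩
      exact ⟨z, g.mono _ _ _ _ hqp h1, PF.mono _ _ _ _ _ (EE.low_mono _ hqp) h2⟩)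
    (by
      rintro ⟨y, x⟩ b b' p ⟨z, h1, h2⟩ ⟨z', h3, h4⟩
      have hz : z = z' := g.uniq _ _ _ _ h1 h3
      subst hz
      exact PF.uniq _ _ _ _ _ h2 h4)
    (by
      rintro ⟨y, x⟩ p
      obtain ⟨p', hp', z, hz⟩ := g.total y p
      obtain ⟨t, ht, b, hb⟩ := (φ z (l x)).total ⟨x.1, hl x⟩ (EE.low (l x).1 p')
      have h1 : EE.glue t p' ≤ p' := EE.glue_le ht
      refine ⟨EE.glue t p', h1.trans hp', b, z, g.mono _ _ _ _ h1 hz, ?_⟩
      refine PF.mono (φ z (l x)) _ _ t _ ?_ hb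
      exact EE.low_glue_le (t := t) (e := p') (r := EE.glue t p') le_rfl)
  refine ⟨S, fun X q => ?_⟩
  obtain ⟨e', he', hred⟩ := hS.exists_reduce (A := Iio (τ β)) (B := ULift.{u} Bool) hN
    (fun γ => {x | x.1 < a γ}) (by
      intro γ _
      refine le_trans ?_ (hS.a_lt γ).le
      exact Cardinal.mk_le_of_injective (f := fun x : {x : Iio (τ β) | x.1 < a γ} =>
        (⟨x.1.1, x.2⟩ : Iio (a γ))) (by
        intro x x' h
        have h' := congrArg Subtype.val h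
        exact Subtype.ext (Subtype.ext h'))) X q
  choose X' hX1 hX2 using fun γ : N => exists_PF_low
    (AA := {x : Iio (τ β) | x.1 < a γ.1}) (Φ := X) (e' := e') (γ := γ.1) (hred γ.1 γ.2)
  obtain ⟨z, hz⟩ := hφ (fun γ => PF.pre (X' γ) fun x =>
    ⟨⟨x.1, (hS.τ_lt β x.1).2 ⟨γ.1, hNβ _ γ.2, x.2⟩⟩, x.2⟩)
  obtain ⟨q', hq', y, hy⟩ := hg z e'
  have hq'q : q' ≤ q := hq'.trans he'
  refine ⟨q', hq'q, y, fun x b r hr hb => ?_⟩
  refine hS2 (y, x) b r ⟨z, g.mono _ _ _ _ hr hy, ?_⟩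
  rw [hz]
  exact (hX2 (l x) ⟨x, hl x⟩ b r (hr.trans hq')).2 hb

theorem SysH.gchP : GchP (EE a c univ) (a ⊥) := by
  intro α hα
  obtain ⟨β, hβ, h1, h2⟩ := hS.cov α hα
  have hτ := h1.trans_lt h2
  exact ⟨τ β, a β, h1, h2, fun x hx => hS.exists_inj hβ hτ hx, hS.exists_pow hτ⟩

/-- functions on `Iio x`, `x < a β`, with values in `Iio (a β)` are bounded -/
theorem SysH.exists_bound {β : O} (hβ : β ≠ ⊥) {x : O} (hx : x < a β)
    (Φ : PF (EE a c univ) (Iio x) (Iio (a β))) (e : EE a c univ) :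
    ∃ e' ≤ e, ∃ b < a β, ∀ y z, ∀ r ≤ e', Φ.val y z r → z.1 < b := by
  obtain ⟨N, hN, h1, AA, hA, hAA⟩ := hS.part β hβ x hx
  obtain ⟨e', he', Z, hZ, hZ2⟩ := hS.exists_cover hN h1 AA hA hAA Φ e
  obtain ⟨b, hb, hb2⟩ := hS.reg β (Subtype.val '' Z) (mk_image_le.trans_lt hZ) (by
    rintro _ ⟨z, _, rfl⟩
    exact z.2)
  exact ⟨e', he', b, hb, fun y z r hr h => hb2 _ ⟨z, hZ2 y z r hr h, rfl⟩⟩

omit hS in
/-- functions on `Iio (a γ)`: the range is covered by a ground set of size `κ γ` -/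
theorem SysR.exists_cover_κ (hS : SysR O κ a c τ) (γ : O) {B : Type u}
    (Φ : PF (EE a c univ) (Iio (a γ)) B) (e : EE a c univ) :
    ∃ e' ≤ e, ∃ Z : Set B, #Z ≤ κ γ ∧ ∀ y z, ∀ r ≤ e', Φ.val y z r → z ∈ Z := by
  obtain ⟨e', he', h⟩ := hS.exists_reduce (hS.thin_singleton γ)
    (fun _ => (univ : Set (Iio (a γ)))) (fun γ' hγ' => by
      rw [mem_singleton_iff] at hγ'
      subst hγ'
      exact (mk_set_le _).trans (hS.a_lt γ').le) Φ e
  refine ⟨e', he', {b | ∃ x, ∃ t : EE a c (Iic γ), Φ.val x b (EE.glue t e')}, ?_, ?_⟩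
  · let J : Type u := (Iio (a γ)) × (EE a c (Iic γ))
    let P : J → Prop := fun j => ∃ b, Φ.val j.1 b (EE.glue j.2 e')
    let F : {j : J // P j} → {b | ∃ x, ∃ t : EE a c (Iic γ), Φ.val x b (EE.glue t e')} :=
      fun j => ⟨Classical.choose j.2, j.1.1, j.1.2, Classical.choose_spec j.2⟩
    have hF : Function.Surjective F := by
      rintro ⟨b, x, t, hb⟩
      refine ⟨⟨(x, t), b, hb⟩, Subtype.ext ?_⟩
      exact Φ.uniq _ _ _ _ (Classical.choose_spec (⟨b, hb⟩ : ∃ b, Φ.val x b (EE.glue t e'))) hb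
    refine (mk_le_of_surjective hF).trans ((mk_subtype_le _).trans ?_)
    rw [mk_prod, lift_id, lift_id]
    exact (mul_le_mul' (hS.a_lt γ).le (hS.card_low γ)).trans (mul_eq_self (hS.κ_inf γ)).le
  · intro x b r hr hb
    obtain ⟨X, hX1, hX2⟩ := exists_PF_low (h γ rfl)
    exact ⟨x, EE.low γ r, (hX1 ⟨x, mem_univ x⟩ b _).1 ((hX2 ⟨x, mem_univ x⟩ b r hr).2 hb)⟩

end Pool.Agent.FSA
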