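import Pool.Agent.Lib_MP_38e082_fsa.S3
import Mathlib.SetTheory.Cardinal.Regular
import Mathlib.SetTheory.Cardinal.Aleph

/-!
# H26-S4: the parameters of the product of collapses
-/

set_option linter.unusedSectionVars false
set_option linter.unusedVariables false

namespace Pool.Agent.FSA

universe u v

open Set Cardinal Ordinal Pool.Agent.KT Pool.Agent.KTM

/-! ### cardinals -/

open Classical in
/-- the least regular cardinal `≥ s` -/
private noncomputable def rg (s : Cardinal.{v}) : Cardinal.{v} :=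
  if s.IsRegular then s else Order.succ s

/-- a strong limit cardinal of cofinality `r` -/
private noncomputable def bt (r : Cardinal.{v}) : Cardinal.{v} := preBeth (r.ord + r.ord)

private lemma rg_regular {s : Cardinal.{v}} (hs : ℵ₀ ≤ s) : (rg s).IsRegular := by
  unfold rg
  split
  · assumption
  · exact isRegular_succ hs

private lemma le_rg (s : Cardinal.{v}) : s ≤ rg s := by
  unfold rg
  split
  · exact le_rfl
  · exact Order.le_succ s

private lemma rg_le_succ (s : Cardinal.{v}) : rg s ≤ Order.succ s := by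
  unfold rg
  split
  · exact Order.le_succ s
  · exact le_rfl

private lemma isSuccLimit_add {r : Cardinal.{v}} (hr : r.IsRegular) :
    Order.IsSuccLimit (r.ord + r.ord) := by
  have h := isSuccLimit_ord hr.aleph0_le
  exact (Ordinal.isSuccLimit_add_iff_of_isSuccLimit h).2 h.isSuccPrelimit

private lemma lt_bt {r : Cardinal.{v}} (hr : r.IsRegular) : r < bt r := by
  have h1 : r ≤ preBeth r.ord := le_preBeth_ord r
  refine h1.trans_lt (preBeth_strictMono ?_)
  exact lt_add_of_pos_right _ hr.ord_pos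

private lemma bt_strong {r : Cardinal.{v}} (hr : r.IsRegular) : IsStrongLimit (bt r) :=
  isStrongLimit_preBeth.2 (isSuccLimit_add hr)

private lemma bt_cof {r : Cardinal.{v}} (hr : r.IsRegular) : (bt r).ord.cof = r := by
  have h : Order.IsNormal (fun o : Ordinal.{v} => (preBeth o).ord) :=
    isNormal_ord.comp isNormal_preBeth
  have h2 := cof_map_of_isNormal h (isSuccLimit_add hr)
  have h3 : (r.ord + r.ord).cof = r := by
    rw [cof_add _ hr.ord_pos.ne', hr.cof_ord]
  exact h2.trans h3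

/-- powers of a strong limit with exponents below the cofinality -/
private lemma pow_le_of_strong {k x : Cardinal.{v}} (hk : IsStrongLimit k) (hx : x < k.ord.cof) :
    k ^ x ≤ k := by
  have hinf := hk.aleph0_le
  have hxk : x < k := hx.trans_le (Ordinal.cof_ord_le k)
  rcases eq_or_ne x 0 with rfl | hx0
  · rw [power_zero]
    exact one_le_aleph0.trans hinf
  have hcard : #(x.out × k.out) = k := by
    rw [mk_prod, Cardinal.lift_id, Cardinal.lift_id, mk_out, mk_out]
    apply le_antisymm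
    · exact (mul_le_mul' hxk.le le_rfl).trans (mul_eq_self hinf).le
    · exact le_mul_of_one_le_left zero_le (Cardinal.one_le_iff_ne_zero.2 hx0)
  have h1 := mk_subset_mk_lt_cof (α := x.out × k.out) (by rw [hcard]; exact hk.isStrongPrelimit)
  rw [hcard] at h1
  calc k ^ x = #(x.out → k.out) := by rw [← power_def, mk_out, mk_out]
    _ ≤ #{s : Set (x.out × k.out) // #s < k.ord.cof} := by
      refine mk_le_of_injective (f := fun f => ⟨range fun i => (i, f i), ?_⟩) ?_
      · refine mk_range_le.trans_lt ?_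
        rw [mk_out]; exact hx
      · intro f g h
        funext i
        have h3 : (range fun i => (i, f i)) = range fun i => (i, g i) := congrArg Subtype.val h
        have h2 : (i, f i) ∈ range fun i => (i, g i) := by
          rw [← h3]
          exact ⟨i, rfl⟩
        obtain ⟨j, hj⟩ := h2
        simp only [Prod.mk.injEq] at hj
        rw [← hj.2, hj.1]
    _ = k := h1

/-- the cardinals `k β` -/
private noncomputable def ck (β : Ordinal.{v}) : Cardinal.{v} :=
  bt (rg (max ℵ₀ (⨆ γ : Iio β, Order.succ (ck γ.1))))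
termination_by β
decreasing_by exact γ.2

/-- the cardinals `s β` -/
private noncomputable def cs (β : Ordinal.{v}) : Cardinal.{v} :=
  max ℵ₀ (⨆ γ : Iio β, Order.succ (ck γ.1))

private lemma ck_eq (β : Ordinal.{v}) : ck β = bt (rg (cs β)) := by
  rw [ck]; rfl

/-- the ordinals `a β` -/
private noncomputable def ca (β : Ordinal.{v}) : Ordinal.{v} := (rg (cs β)).ord

/-- the ordinals `c β` -/
private noncomputable def cc (β : Ordinal.{v}) : Ordinal.{v} := (ck β).ord

/-- the ordinals `τ β` -/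
private noncomputable def ct (β : Ordinal.{v}) : Ordinal.{v} := ⨆ γ : Iio β, ca γ.1

private lemma cs_bdd (β : Ordinal.{v}) :
    BddAbove (range fun γ : Iio β => Order.succ (ck γ.1)) :=
  Cardinal.bddAbove_of_small

private lemma aleph0_le_cs (β : Ordinal.{v}) : ℵ₀ ≤ cs β := le_max_left _ _

private lemma rg_reg (β : Ordinal.{v}) : (rg (cs β)).IsRegular := rg_regular (aleph0_le_cs β)

private lemma rg_lt_ck (β : Ordinal.{v}) : rg (cs β) < ck β := by
  rw [ck_eq]; exact lt_bt (rg_reg β)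

private lemma succ_le_cs {γ β : Ordinal.{v}} (h : γ < β) : Order.succ (ck γ) ≤ cs β :=
  (le_ciSup (cs_bdd β) ⟨γ, h⟩).trans (le_max_right _ _)

private lemma ck_lt_rg {γ β : Ordinal.{v}} (h : γ < β) : ck γ < rg (cs β) :=
  (Order.lt_succ _).trans_le ((succ_le_cs h).trans (le_rg _))

private lemma ck_lt {γ β : Ordinal.{v}} (h : γ < β) : ck γ < ck β :=
  (ck_lt_rg h).trans (rg_lt_ck β)

private lemma ck_mono {γ β : Ordinal.{v}} (h : γ ≤ β) : ck γ ≤ ck β := by
  rcases h.lt_or_eq with h | h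
  · exact (ck_lt h).le
  · rw [h]

private lemma ck_strong (β : Ordinal.{v}) : IsStrongLimit (ck β) := by
  rw [ck_eq]; exact bt_strong (rg_reg β)

private lemma ck_cof (β : Ordinal.{v}) : (ck β).ord.cof = rg (cs β) := by
  rw [ck_eq]; exact bt_cof (rg_reg β)

private lemma ca_strictMono : StrictMono ca.{v} := by
  intro γ β h
  exact ord_lt_ord.2 ((rg_lt_ck γ).trans (ck_lt_rg h))

private lemma le_ca (β : Ordinal.{v}) : β ≤ ca β := ca_strictMono.le_apply

private lemma cs_zero : cs.{v} 0 = ℵ₀ := by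
  unfold cs
  have : IsEmpty (Iio (0 : Ordinal.{v})) := ⟨fun x => absurd (mem_Iio.1 x.2) not_lt_zero⟩
  rw [ciSup_of_empty]
  simp

private lemma rg_zero : rg (cs.{v} 0) = ℵ₀ := by
  rw [cs_zero]
  unfold rg
  rw [if_pos isRegular_aleph0]

private lemma cs_succ (γ : Ordinal.{v}) : cs (Order.succ γ) = Order.succ (ck γ) := by
  apply le_antisymm
  · refine max_le ?_ (ciSup_le' fun δ => ?_)
    · exact (ck_strong γ).aleph0_le.trans (Order.le_succ _)
    · exact Order.succ_le_succ (ck_mono (Order.lt_succ_iff.1 δ.2))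
  · exact succ_le_cs (Order.lt_succ γ)

private lemma rg_succ (γ : Ordinal.{v}) : rg (cs (Order.succ γ)) = Order.succ (ck γ) := by
  rw [cs_succ]
  unfold rg
  rw [if_pos (isRegular_succ (ck_strong γ).aleph0_le)]

private lemma mk_Iio' (x : Ordinal.{v}) : #(Iio x) = Cardinal.lift.{v+1} x.card := by
  simp

private lemma lt_ct {β x : Ordinal.{v}} : x < ct β ↔ ∃ γ < β, x < ca γ := by
  rw [ct, Ordinal.lt_iSup_iff]
  constructor
  · rintro ⟨γ, h⟩
    exact ⟨γ.1, γ.2, h⟩
  · rintro ⟨γ, h1, h2⟩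
    exact ⟨⟨γ, h1⟩, h2⟩

private lemma ct_succ (γ : Ordinal.{v}) : ct (Order.succ γ) = ca γ := by
  apply le_antisymm
  · refine le_of_forall_lt fun x hx => ?_
    obtain ⟨δ, h1, h2⟩ := lt_ct.1 hx
    exact h2.trans_le (ca_strictMono.monotone (Order.lt_succ_iff.1 h1))
  · exact le_of_forall_lt fun x hx => lt_ct.2 ⟨γ, Order.lt_succ γ, hx⟩

/-- elements of `s β`, for a limit `β` -/
private lemma lt_cs {β : Ordinal.{v}} (hβ : Order.IsSuccLimit β) {x : Cardinal.{v}} :
    x < cs β ↔ ∃ γ < β, x ≤ ck γ := by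
  constructor
  · intro h
    rcases lt_max_iff.1 h with h | h
    · exact ⟨0, hβ.bot_lt, h.le.trans (ck_strong 0).aleph0_le⟩
    · have hne : Nonempty (Iio β) := ⟨⟨0, hβ.bot_lt⟩⟩
      obtain ⟨γ, hγ⟩ := (lt_ciSup_iff (cs_bdd β)).1 h
      exact ⟨γ.1, γ.2, Order.lt_succ_iff.1 hγ⟩
  · rintro ⟨γ, hγ, h⟩
    exact h.trans_lt ((Order.lt_succ _).trans_le (succ_le_cs hγ))

private lemma ct_limit {β : Ordinal.{v}} (hβ : Order.IsSuccLimit β) : ct β = (cs β).ord := by
  apply le_antisymm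
  · refine le_of_forall_lt fun x hx => ?_
    obtain ⟨γ, h1, h2⟩ := lt_ct.1 hx
    refine h2.trans_le (ord_le_ord.2 ?_)
    exact (rg_lt_ck γ).le.trans ((Order.le_succ _).trans (succ_le_cs h1))
  · refine le_of_forall_lt fun x hx => ?_
    obtain ⟨γ, h1, h2⟩ := (lt_cs hβ).1 (lt_ord.1 hx)
    refine lt_ct.2 ⟨Order.succ γ, hβ.succ_lt h1, ?_⟩
    rw [ca, rg_succ, lt_ord, Order.lt_succ_iff]
    exact h2

/-- small sets are thin -/
private lemma thin_of_le {N : Set Ordinal.{v}} {g : Ordinal.{v}}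
    (hN : #N ≤ Cardinal.lift.{v+1} (ck g)) (hg : ∀ γ ∈ N, g ≤ γ) :
    Thin (fun β => Cardinal.lift.{v+1} (ck β)) ca N := by
  intro ξ
  have hR : #(Iio (ca ξ)) = Cardinal.lift.{v+1} (rg (cs ξ)) := by
    rw [mk_Iio', ca, card_ord]
  have hreg : (Cardinal.lift.{v+1} (rg (cs ξ))).IsRegular := (rg_reg ξ).lift
  rw [hR]
  refine sum_lt_of_isRegular hreg ?_ fun γ => ?_
  · by_cases hne : ∃ γ ∈ N, γ < ξ
    · obtain ⟨γ, h1, h2⟩ := hne
      have h3 : g < ξ := (hg γ h1).trans_lt h2
      have h4 : #{γ // γ ∈ N ∧ γ < ξ} ≤ #N := by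
        refine mk_le_of_injective (f := fun x => (⟨x.1, x.2.1⟩ : N)) fun x y h => ?_
        have h' : x.1 = y.1 := by
          simp only [Subtype.mk.injEq] at h
          exact h
        exact Subtype.ext h'
      exact (h4.trans hN).trans_lt (lift_lt.2 (ck_lt_rg h3))
    · have : IsEmpty {γ // γ ∈ N ∧ γ < ξ} := ⟨fun x => hne ⟨x.1, x.2⟩⟩
      rw [mk_eq_zero]
      exact hreg.pos
  · exact lift_lt.2 (ck_lt_rg γ.2.2)

/-- the data of a singular limit level -/
private lemma exists_sing {δ : Ordinal.{v}} (hδ : Order.IsSuccLimit δ)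
    (hs : ¬ (cs δ).IsRegular) : ∃ (N : Set Ordinal.{v}) (g : Ordinal.{v}), g < δ ∧
      (∀ j ∈ N, g < j ∧ j < δ) ∧ (∀ γ < δ, ∃ j ∈ N, γ < j) ∧
      #N ≤ Cardinal.lift.{v+1} (ck g) ∧
      2 ^ #N < Cardinal.lift.{v+1} (ck g) ∧
      ∀ γ, ∀ D : Set Ordinal.{v}, #D ≤ Cardinal.lift.{v+1} (ck γ) → (∀ d ∈ D, d < δ) →
        (∀ η < δ, ∃ d ∈ D, η ≤ d) → g ≤ γ := by
  have hreg : δ.cof.IsRegular := isRegular_cof hδ
  have hlt : δ.cof < cs δ := by
    by_contra hc
    rw [not_lt] at hc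
    have h1 : δ.card ≤ cs δ := by
      have h2 : δ ≤ (cs δ).ord := by
        rw [← ct_limit hδ]
        refine le_of_forall_lt fun x hx => lt_ct.2 ⟨Order.succ x, hδ.succ_lt hx, ?_⟩
        exact (Order.lt_succ x).trans_le (le_ca _)
      simpa using Ordinal.card_le_card h2
    have h3 : δ.cof = cs δ := le_antisymm ((Ordinal.cof_le_card δ).trans h1) hc
    rw [h3] at hreg
    exact hs hreg
  have hex : ∃ γ, δ.cof ≤ ck γ := by
    obtain ⟨γ, _, h⟩ := (lt_cs hδ).1 hlt
    exact ⟨γ, h⟩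
  obtain ⟨g, hg, hmin⟩ := WellFounded.has_min (wellFounded_lt (α := Ordinal.{v}))
    {γ | δ.cof ≤ ck γ} hex
  have hgδ : g < δ := by
    obtain ⟨γ, h1, h2⟩ := (lt_cs hδ).1 hlt
    exact (not_lt.1 (hmin γ h2)).trans_lt h1
  have hcg : δ.cof < ck g := by
    refine lt_of_le_of_ne hg fun h => ?_
    have h1 := ck_cof g
    rw [← h, hreg.cof_ord] at h1
    have h2 := rg_lt_ck g
    rw [← h, h1] at h2
    exact lt_irrefl _ h2
  obtain ⟨D, hD, hDc⟩ := Order.exists_cof_eq (Iio δ)
  have hDc' : #D = Cardinal.lift.{v+1} δ.cof := by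
    rw [hDc, Ordinal.cof_Iio, Ordinal.lift_cof]
  have hD' : ∀ γ < δ, ∃ d ∈ D, γ ≤ d.1 := by
    intro γ hγ
    obtain ⟨d, hd, h⟩ := hD ⟨γ, hγ⟩
    exact ⟨d, hd, h⟩
  let N : Set Ordinal.{v} := {j | g < j ∧ ∃ d ∈ D, d.1 = j}
  have hNc : #N ≤ Cardinal.lift.{v+1} δ.cof := by
    rw [← hDc']
    have h1 : N ⊆ Subtype.val '' D := fun j hj => by
      obtain ⟨d, hd, rfl⟩ := hj.2
      exact ⟨d, hd, rfl⟩
    exact (mk_le_mk_of_subset h1).trans mk_image_le
  refine ⟨N, g, hgδ, ?_, ?_, ?_, ?_, ?_⟩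
  · rintro j ⟨h1, d, _, rfl⟩
    exact ⟨h1, d.2⟩
  · intro γ hγ
    obtain ⟨d, hd, h⟩ := hD' (Order.succ (max γ g)) (hδ.succ_lt (max_lt hγ hgδ))
    have h1 : max γ g < d.1 := (Order.lt_succ _).trans_le h
    exact ⟨d.1, ⟨(le_max_right _ _).trans_lt h1, d, hd, rfl⟩, (le_max_left _ _).trans_lt h1⟩
  · exact hNc.trans (lift_le.2 hg)
  · refine (power_le_power_left two_ne_zero hNc).trans_lt ?_
    rw [← Cardinal.lift_two_power, Cardinal.lift_lt]
    exact (ck_strong g).isStrongPrelimit hcg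
  · intro γ D' hD1 hD2 hD3
    refine not_lt.1 (hmin γ ?_)
    have h1 : Cardinal.lift.{v+1} δ.cof ≤ #D' := by
      rw [Ordinal.lift_cof, ← Ordinal.cof_Iio]
      let D2 : Set (Iio δ) := {d | d.1 ∈ D'}
      have h2 : IsCofinal D2 := by
        rintro ⟨x, hx⟩
        obtain ⟨d, hd, h⟩ := hD3 x hx
        exact ⟨⟨d, hD2 d hd⟩, hd, h⟩
      refine (Order.cof_le h2).trans ?_
      refine mk_le_of_injective (f := fun d : D2 => (⟨d.1.1, d.2⟩ : D')) fun x y h => ?_
      have h' : x.1.1 = y.1.1 := by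
        simp only [Subtype.mk.injEq] at h
        exact h
      exact Subtype.ext (Subtype.ext h')
    exact lift_le.1 (h1.trans hD1)

/-- **The parameters exist.** -/
theorem exists_sysH : ∃ (κ : Ordinal.{v} → Cardinal.{v+1}) (a c τ : Ordinal.{v} → Ordinal.{v}),
    SysH Ordinal.{v} κ a c τ ∧ a ⊥ = ω ∧ (∀ γ, κ γ < Cardinal.univ.{v, v+1}) ∧
    ∀ A : Type v, ∃ γ, Cardinal.lift.{v+1} #A ≤ κ γ := by
  have hIa : ∀ γ : Ordinal.{v}, #(Iio (ca γ)) = Cardinal.lift.{v+1} (rg (cs γ)) := fun γ => by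
    rw [mk_Iio', ca, card_ord]
  have hSR : SysR Ordinal.{v} (fun β => Cardinal.lift.{v+1} (ck β)) ca cc ct := by
    constructor
    case inf =>
      intro γ
      rw [hIa]
      exact aleph0_le_lift.2 (rg_reg γ).aleph0_le
    case seg_a =>
      intro γ x hx
      rw [hIa, mk_Iio', Cardinal.lift_lt]
      exact lt_ord.1 hx
    case reg =>
      intro γ s hs h
      rw [hIa] at hs
      obtain ⟨d, hd2, hd1⟩ := Cardinal.lt_lift_iff.1 hs
      obtain ⟨e⟩ : Nonempty (ULift.{v+1} d.out ≃ s) := by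
        rw [← Cardinal.eq, Cardinal.mk_uLift, Cardinal.mk_out]
        exact hd1
      refine ⟨⨆ i : d.out, Order.succ (e ⟨i⟩).1, ?_, ?_⟩
      · apply Ordinal.iSup_lt_of_lt_cof
        · rw [ca, (rg_reg γ).cof_ord, Cardinal.mk_out]
          exact hd2
        · intro i
          exact (Cardinal.isSuccLimit_ord (rg_reg γ).aleph0_le).succ_lt (h _ (e ⟨i⟩).2)
      · intro x hx
        have h3 : Order.succ x ≤ ⨆ i : d.out, Order.succ (e ⟨i⟩).1 := by
          have h4 := Ordinal.le_iSup (fun i : d.out => Order.succ (e ⟨i⟩).1)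
            (e.symm ⟨x, hx⟩).down
          rwa [show (⟨(e.symm ⟨x, hx⟩).down⟩ : ULift.{v+1} d.out) = e.symm ⟨x, hx⟩ from rfl,
            Equiv.apply_symm_apply] at h4
        exact (Order.lt_succ x).trans_le h3
    case c_eq =>
      intro γ
      rw [mk_Iio', cc, card_ord]
    case a_lt =>
      intro γ
      rw [hIa, Cardinal.lift_lt]
      exact rg_lt_ck γ
    case strong =>
      intro γ x hx
      obtain ⟨d, hd2, rfl⟩ := Cardinal.lt_lift_iff.1 hx
      rw [← Cardinal.lift_two_power, Cardinal.lift_lt]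
      exact (ck_strong γ).isStrongPrelimit hd2
    case κ_pow =>
      intro γ x hx
      rw [hIa] at hx
      obtain ⟨d, hd2, rfl⟩ := Cardinal.lt_lift_iff.1 hx
      rw [← Cardinal.lift_power, Cardinal.lift_le]
      exact pow_le_of_strong (ck_strong γ) (by rw [ck_cof]; exact hd2)
    case κ_lt =>
      intro γ ξ h
      rw [hIa, Cardinal.lift_lt]
      exact ck_lt_rg h
    case seg =>
      intro γ
      exact mk_le_mk_of_subset fun x hx => (mem_Iio.1 hx).trans_le (le_ca γ)
    case τ_lt =>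
      intro β x
      exact lt_ct
  -- the size of `s β`
  have hIt : ∀ {β : Ordinal.{v}}, Order.IsSuccLimit β →
      #(Iio (ct β)) = Cardinal.lift.{v+1} (cs β) := fun {β} hβ => by
    rw [mk_Iio', ct_limit hβ, card_ord]
  have hlt : ∀ {β : Ordinal.{v}}, Order.IsSuccLimit β → ct β < ca β → ¬ (cs β).IsRegular := by
    intro β hβ h hr
    rw [ct_limit hβ, ca] at h
    unfold rg at h
    rw [if_pos hr] at h
    exact lt_irrefl _ h
  have hseg : ∀ {β : Ordinal.{v}}, Order.IsSuccLimit β → ∀ x < ca β,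
      #(Iio x) ≤ #(Iio (ct β)) := by
    intro β hβ x hx
    rw [hIt hβ, mk_Iio', Cardinal.lift_le]
    have h1 : x.card < Order.succ (cs β) := (lt_ord.1 hx).trans_le (rg_le_succ _)
    exact Order.lt_succ_iff.1 h1
  have happ : ∀ {β : Ordinal.{v}}, Order.IsSuccLimit β → ¬ (cs β).IsRegular →
      ∃ N, Thin (fun β => Cardinal.lift.{v+1} (ck β)) ca N ∧ (∀ γ ∈ N, γ < β) ∧
        ∀ x < ct β, ∃ γ ∈ N, x < ca γ := by
    intro β hβ hr
    obtain ⟨N, g, h1, h2, h3, h4, _⟩ := exists_sing hβ hr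
    refine ⟨N, thin_of_le h4 fun γ hγ => (h2 γ hγ).1.le, fun γ hγ => (h2 γ hγ).2, ?_⟩
    intro x hx
    obtain ⟨γ, h5, h6⟩ := lt_ct.1 hx
    obtain ⟨j, hj, h7⟩ := h3 γ h5
    exact ⟨j, hj, h6.trans (ca_strictMono h7)⟩
  have hone : ∀ γ : Ordinal.{v}, Thin (fun β => Cardinal.lift.{v+1} (ck β)) ca {γ} := by
    intro γ
    refine thin_of_le (g := γ) ?_ fun γ' h => by rw [mem_singleton_iff] at h; rw [h]
    rw [mk_singleton]
    exact one_le_aleph0.trans (aleph0_le_lift.2 (ck_strong γ).aleph0_le)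
  refine ⟨fun β => Cardinal.lift.{v+1} (ck β), ca, cc, ct, ?_, ?_,
    fun γ => Cardinal.lift_lt_univ _, fun A => ⟨(#A).ord, ?_⟩⟩
  · refine { toSysR := hSR, cov := ?_, app := ?_, inj := ?_, part := ?_, lim := ?_ }
    · intro α hα
      have hex : ∃ β, α < ca β :=
        ⟨Order.succ α, (Order.lt_succ α).trans_le (le_ca _)⟩
      obtain ⟨β, h1, h2⟩ := WellFounded.has_min (wellFounded_lt (α := Ordinal.{v}))
        {β | α < ca β} hex
      refine ⟨β, ?_, ?_, h1⟩
      · rintro rfl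
        exact absurd hα (not_le.2 h1)
      · refine le_of_not_gt fun h3 => ?_
        obtain ⟨γ, h4, h5⟩ := lt_ct.1 h3
        exact h2 γ h5 h4
    · intro β hβ
      rcases Ordinal.zero_or_succ_or_isSuccLimit β with rfl | ⟨γ, rfl⟩ | hlim
      · refine ⟨∅, thin_of_le (g := 0) (by simp) (by simp), by simp, ?_⟩
        intro x hx
        obtain ⟨γ, h, _⟩ := lt_ct.1 hx
        exact absurd h not_lt_zero
      · refine ⟨{γ}, hone γ, ?_, ?_⟩
        · intro γ' h
          rw [mem_singleton_iff] at h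
          rw [h]
          exact Order.lt_succ γ
        · intro x hx
          rw [ct_succ] at hx
          exact ⟨γ, rfl, hx⟩
      · exact happ hlim (hlt hlim hβ)
    · intro β hβ0 hβ
      rcases Ordinal.zero_or_succ_or_isSuccLimit β with rfl | ⟨γ, rfl⟩ | hlim
      · exact absurd rfl hβ0
      · right
        refine ⟨γ, ct_succ γ, fun x hx => ?_⟩
        rw [mk_Iio', Cardinal.lift_le, ← Order.lt_succ_iff, ← rg_succ]
        exact lt_ord.1 hx
      · left
        exact hseg hlim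
    · intro β hβ0 x hx
      have hcase : ∀ γ < β, #(Iio x) ≤ Cardinal.lift.{v+1} (ck γ) → ∃ N,
          Thin (fun β => Cardinal.lift.{v+1} (ck β)) ca N ∧ (∀ γ ∈ N, γ < β) ∧
          ∃ AA : Ordinal.{v} → Set (Iio x), (∀ γ ∈ N, #(AA γ) ≤ Cardinal.lift.{v+1} (ck γ)) ∧
            ∀ y, ∃ γ ∈ N, y ∈ AA γ := by
        intro γ hγ h
        refine ⟨{γ}, hone γ, ?_, fun _ => univ, ?_, fun y => ⟨γ, rfl, mem_univ y⟩⟩
        · intro γ' h
          rw [mem_singleton_iff] at h
          rw [h]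
          exact hγ
        · intro γ' h'
          rw [mem_singleton_iff] at h'
          rw [h']
          exact (mk_set_le _).trans h
      rcases Ordinal.zero_or_succ_or_isSuccLimit β with rfl | ⟨γ, rfl⟩ | hlim
      · exact absurd rfl hβ0
      · refine hcase γ (Order.lt_succ γ) ?_
        rw [mk_Iio', Cardinal.lift_le, ← Order.lt_succ_iff, ← rg_succ]
        exact lt_ord.1 hx
      · by_cases hr : (cs β).IsRegular
        · have h1 : x.card < cs β := by
            have h2 := lt_ord.1 hx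
            unfold rg at h2
            rwa [if_pos hr] at h2
          obtain ⟨γ, h2, h3⟩ := (lt_cs hlim).1 h1
          refine hcase γ h2 ?_
          rw [mk_Iio', Cardinal.lift_le]
          exact h3
        · obtain ⟨N, h1, h2, h3⟩ := happ hlim hr
          obtain ⟨f⟩ := Cardinal.le_def _ _ |>.1 (hseg hlim x hx)
          refine ⟨N, h1, h2, fun γ => {y | (f y).1 < ca γ}, ?_, ?_⟩
          · intro γ _
            refine le_trans ?_ (hSR.a_lt γ).le
            refine mk_le_of_injective (f := fun y : {y : Iio x | (f y).1 < ca γ} =>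
              (⟨(f y.1).1, y.2⟩ : Iio (ca γ))) fun y z h => ?_
            simp only [Subtype.mk.injEq] at h
            exact Subtype.ext (f.injective (Subtype.ext h))
          · intro y
            obtain ⟨γ, h4, h5⟩ := h3 (f y).1 (f y).2
            exact ⟨γ, h4, h5⟩
    · intro β hβ0 hβ
      rcases Ordinal.zero_or_succ_or_isSuccLimit β with rfl | ⟨γ, rfl⟩ | hlim
      · exact absurd rfl hβ0
      · exact Or.inl ⟨γ, ct_succ γ⟩
      · right
        obtain ⟨N, g, h1, h2, h3, _, h5, h6⟩ := exists_sing hlim (hlt hlim hβ)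
        exact ⟨N, g, ⟨h1, hβ, hseg hlim, h2, h3, h5, h6⟩⟩
  · change ca 0 = ω
    rw [ca, rg_zero, ord_aleph0]
  · change Cardinal.lift.{v+1} #A ≤ Cardinal.lift.{v+1} (ck (#A).ord)
    rw [Cardinal.lift_le]
    have h1 : (#A).ord ≤ (ck (#A).ord).ord :=
      (le_ca _).trans (ord_le_ord.2 (rg_lt_ck _).le)
    exact ord_le_ord.1 h1

end Pool.Agent.FSA
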